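import Pool.Agent.Lib.Forcing.Defs

/-! Notions read inside a structure `(M, E)`; every quantifier ranges over `M`. -/

namespace Pool.Agent.MP_b3fb72_lc

open Pool.Agent.Lib.Forcing

universe u

variable {M : Type u} (E : M → M → Prop)

/-- `a` is an ordinal: transitive and linearly ordered by membership. -/
def Ordn (a : M) : Prop :=
  (∀ x y, E x y → E y a → E x a) ∧ ∀ x y, E x a → E y a → E x y ∨ x = y ∨ E y x

/-- `|X| ≤ |Y|`. -/
def Inj (X Y : M) : Prop := Le E (fun x => E x X) (fun y => E y Y)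

/-- `a` is a cardinal (an initial ordinal). -/
def Card (a : M) : Prop := Ordn E a ∧ ∀ b, E b a → ¬ Inj E a b

/-- `p` is the power set of `x`. -/
def Pow (x p : M) : Prop := ∀ z, E z p ↔ ∀ t, E t z → E t x

/-- `l : w → a` is strictly increasing and cofinal in `a`. -/
def Lad (w a l : M) : Prop :=
  Fn E w (fun _ y => E y a) l ∧ (∀ i j x y, E i j → Ap E l i x → Ap E l j y → E x y) ∧
    ∀ b, E b a → ∃ i y, Ap E l i y ∧ E b y

/-- `C` is closed and unbounded in `k`. -/
def Club (k C : M) : Prop :=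
  (∀ x, E x C → E x k) ∧ (∀ b, E b k → ∃ c, E c C ∧ E b c) ∧
    ∀ d, E d k → (∃ b, E b d) → (∀ b, E b d → ∃ c, E c C ∧ E b c ∧ E c d) → E d C

/-- `S` meets every club of `k`. -/
def Stat (k S : M) : Prop := ∀ C, Club E k C → ∃ a, E a S ∧ E a C

/-- `m` is a strong limit cardinal above `w` with a cofinal `w`-sequence, `k = m⁺ = 2 ^ m`. -/
def Arith (w m k : M) : Prop :=
  Card E m ∧ E w m ∧ (∃ l, Lad E w m l) ∧ (∀ a p, E a m → Pow E a p → ∃ b, E b m ∧ Inj E p b) ∧
    Card E k ∧ E m k ∧ (∀ a, E a k → Inj E a m) ∧ ∀ p, Pow E m p → Inj E p k ∧ Inj E k p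

/-- For some `n ∈ w`, the colours `f (l i)` for `i ≥ n` are pairwise different. -/
def TailInj (w f l : M) : Prop :=
  ∃ n, E n w ∧ ∀ i j x y u v, ¬ E i n → E i j → Ap E l i x → Ap E l j y → Ap E f x u →
    Ap E f y v → u ≠ v

end Pool.Agent.MP_b3fb72_lc
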